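import Pool.Agent.N208.AD.CenB

set_option autoImplicit false

/-!
# The groups which contain the periods of a motive of abelian type are irreducible in the
Mumford-Tate group

Let `A` be an abelian variety over `ℚ̄` and let `M` be any André motive over `ℚ̄` in the tensor
category generated by `h^1(A)` and the Tate motives. (By theorems of André this class of motives,
for all `A`, contains the motives of products of curves, abelian varieties, K3 surfaces,
hyperkähler varieties, cubic fourfolds and Fermat hypersurfaces.) Let `G ⊆ GL(H_B(M))` be an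
algebraic group over `ℚ` with a torsor over `ℚ̄` which contains the comparison isomorphism `c_M`. The
period conjecture says that `c_M` is a generic point, over `ℚ̄`, of a torsor under the Mumford-Tate
group `MT(M)`, so that every such `G` contains `MT(M)`.

**Theorem.** An element of `Hg(M)(ℂ)` which commutes with `G` commutes with `MT(M)`. Here `Hg(M)` is
the Hodge group of `M`, so that `MT(M)` is generated by `Hg(M)` and the weights, which are central.

So the centralizer of `G` in `MT(M)` is the centre of `MT(M)`, for all motives of abelian type and all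
groups `G`. This is a consequence of the conjecture which can be proved although `G` itself is not
known; it says that `G` cannot be much smaller than `MT(M)`:

* (Infinitesimal form.) Let `𝔪 ⊆ M ⊗ M^∨` be the adjoint motive, with Betti realization
  `Lie Hg(M)`. Every de Rham-Betti class in `𝔪` is a Hodge class: it commutes with the smallest group
  `G`, hence with `MT(M)`.
* The smallest group `G` is reductive (it is an image of the corresponding group of `A`, which acts
  semisimply by the theorem of Wüstholz), and a reductive subgroup of a proper parabolic subgroup of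
  `MT(M)` commutes with a cocharacter which is not central. So `G` is in no proper parabolic subgroup
  of `MT(M)`. It is also not in the centralizer of an element of finite order (a subgroup of maximal
  rank like `SL_2 × SL_2 ⊆ Sp_4`, or `SO(a) × SO(b) ⊆ SO(a + b)` with `b` even), if this element is
  not central.
* The image of the smallest `G` in a simple factor of `MT(M)^ad ⊗ ℂ` of type `A_1` is the whole
  factor, in a factor `SO_5` it is the factor or the irreducible subgroup `PGL_2`, in a factor of type
  `A_2` it is the factor or `SO_3`.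

For `M = h^1(A)` the theorem is a consequence of the theorem of Wüstholz, which determines the
commutant of `G` in `End(H^1(A))`. For a general motive `M` nothing is known about the commutant of `G`
in `End(H_B(M))`, since no theorem on linear forms in the periods of `M` is available: `M` can be a
motive of weight two attached to some of the simple factors of `MT(A)`, where no power of `h^1(A)` is
in the tensor category generated by `M`. The elements of `Hg(M)` which commute with `G` do not lift to
elements which commute with the corresponding group for `A`, and the statement is about elements of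
`Hg(M)(ℂ)`, not only of its Lie algebra.

## Motives

As `h^1(A)` is dual to `h^1(A)(1)`, the motive `M` is a direct factor of a sum of motives
`h^1(A) ^ {⊗ r i} (w i)`. Its Betti realization is a space of families of multilinear forms with
rational values, in `r i` variables in `H_1(A, ℚ)`, with a basis `B`. It is the image of a motivated
projector, and the realizations of motivated classes are Hodge classes and de Rham-Betti classes; so
it is stable under the Lie algebra `𝔤` of the endomorphisms of `H_1(A, ℚ)` which annihilate all
classes that are Hodge classes and de Rham-Betti classes (`InLie`), and under the weights. The de Rham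
realization has a basis which consists of combinations of products of elements of `H^1_dR(A / ℚ̄)`
with algebraic coefficients. The matrix `P` of the periods expresses it in terms of the basis
`(2 π i) ^ (w i) B` of the Betti realization (`IsMotive`). (By theorems of Deligne and André all
subspaces which are stable under `𝔤` and the weights are obtained from motives.) By the theorem of
Deligne all Hodge classes on abelian varieties are de Rham-Betti classes, so that `𝔤` is the Lie
algebra of the Hodge group of `A`, its image in `End(H_B(M))` is the Lie algebra of `Hg(M)`, and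
`Hg(M)(ℂ)`, a connected group, is generated by the exponentials of the complex combinations of the
elements of this image (`hodgeGroup`).

Nothing is assumed about periods: `AbVar` is the description of an abelian variety over `ℚ̄` by theta
functions (see `Pool/Agent/Y102/AVDefs.lean`, where it is explained why every abelian variety has it),
and the transcendence theorems which are used, the theorem of Schneider and Lang and the
transcendence of `π`, are proved in this repository.

## Proof

Let `ρ` be the action of `𝔤` on `M`, `𝔨` its kernel, and let `𝔮` be the set of the `X` in `𝔤` such that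
`ρ(X)` is in the Lie algebra of `G` up to a multiple of the weight. By the theorem of Schneider and
Lang the commutant of `𝔮` in `End(H_1(A))` is that of `𝔤` (`qM_full`, see `SolvablePeriodTorsors`). The
complex structure `J` is in `𝔤 ⊗ ℝ`, so that ideals are stable under the conjugation by `J`, and the
trace form is not degenerate on them; so `𝔤 = 𝔨 ⊕ 𝔨'`, where `𝔨'` is an ideal which commutes with `𝔨`
(`perpI_dec`, `perpI_comm`). A product `x` of exponentials of elements of `ρ(𝔤) ⊗ ℂ = ρ(𝔨') ⊗ ℂ`
lifts to the product `y` of the exponentials of the corresponding elements of `𝔨' ⊗ ℂ`, which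
commutes with `𝔨`, normalizes `𝔨' ⊗ ℂ`, and acts on it by conjugation as `x` acts on `ρ(𝔨') ⊗ ℂ`
(`exp_lift`). If `x` commutes with `G`, hence with `ρ(𝔮)`, then for `X = K + X'` in `𝔮` we have
`y X y⁻¹ = K + y X' y⁻¹`, where `y X' y⁻¹ - X'` is in `𝔨' ⊗ ℂ` and in the kernel of `ρ`, hence zero.
So `y` commutes with `𝔮`, hence with `𝔤`, and `x` commutes with `ρ(𝔤)`.
-/

open Module Matrix Pool.Agent.Y102 Pool.Agent.W516.DR Pool.Agent.H204R3.GP

noncomputable section

namespace Pool.Agent.Results.MP_57341d_ag.CentralizersOfPeriods

variable {g : ℕ} (A : AbVar g)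

/-! ### The Lie algebra -/

/-- The multilinear forms in `2m` variables in the rational homology. -/
abbrev Form (m : ℕ) : Type := MultilinearMap ℚ (fun _ : Fin m × Fin 2 => A.H1) ℚ

/-- `φ` is a de Rham-Betti class in `H^1(A) ^ {⊗ 2m} (m)`. -/
def IsDRB {m : ℕ} (φ : Form A m) : Prop :=
  IsDeRhamBettiForm QBar A.dR (2 * Real.pi * Complex.I) m φ

/-- `φ` is a Hodge class in `H^1(A) ^ {⊗ 2m} (m)`. -/
def IsHodge {m : ℕ} (φ : Form A m) : Prop := IsHodgeTensor (A.per : A.H1 →+ (Fin g → ℂ)) φ

/-- The endomorphism `X` annihilates the form `φ` (as a derivation). -/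
def Annihilates {m : ℕ} (X : Module.End ℚ A.H1) (φ : Form A m) : Prop :=
  ∀ v, ∑ k, φ (Function.update v k (X (v k))) = 0

/-- `X` is in the Lie algebra `𝔤`: it annihilates all classes that are Hodge classes and
de Rham-Betti classes. -/
def InLie (X : Module.End ℚ A.H1) : Prop :=
  ∀ (m : ℕ) (φ : Form A m), IsHodge A φ → IsDRB A φ → Annihilates A X φ

/-! ### Motives -/

variable {s n : ℕ} (r : Fin s → ℕ) (w : Fin s → ℤ)

/-- The Betti realization of the sum of the motives `h^1(A) ^ {⊗ r i} (w i)`: families of multilinear
forms in `r i` variables in the rational homology. -/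
abbrev Tensors : Type := ∀ i : Fin s, MultilinearMap ℚ (fun _ : Fin (r i) => A.H1) ℚ

variable {A r}

/-- The endomorphism `X` acts, as a derivation, on the elements of the basis `B` by the matrix `M`. -/
def IsLieMatrix (B : Fin n → Tensors A r) (X : Module.End ℚ A.H1)
    (M : Matrix (Fin n) (Fin n) ℚ) : Prop :=
  ∀ a i v, ∑ k, B a i (Function.update v k (X (v k))) = ∑ b, M b a * B b i v

/-- The subspace with the basis `B` is the Betti realization of a direct factor `M` of the sum of the
motives `h^1(A) ^ {⊗ r i} (w i)`, and `P` is the matrix of the periods of `M` for the basis `B` and for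
some basis of the de Rham realization of `M` over `ℚ̄`. -/
structure IsMotive (B : Fin n → Tensors A r) (P : Matrix (Fin n) (Fin n) ℂ) : Prop where
  /-- `B` is a basis of a subspace -/
  basis : LinearIndependent ℚ B
  /-- the subspace is stable under `𝔤` -/
  lie : ∀ X, InLie A X → ∃ M : Matrix (Fin n) (Fin n) ℚ, IsLieMatrix B X M
  /-- the subspace is stable under the weights -/
  weight : ∃ M : Matrix (Fin n) (Fin n) ℚ, ∀ a i v,
    ((r i : ℚ) - 2 * w i) * B a i v = ∑ b, M b a * B b i v
  /-- the de Rham realization has a basis of elements with algebraic coefficients in terms of the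
  tensor products of the elements of the basis of `H^1_dR(A / ℚ̄)` -/
  deRham : ∃ c : Fin n → ∀ i : Fin s, (Fin (r i) → Fin g ⊕ Fin g) → ℂ,
    (∀ a i J, IsAlgebraic ℚ (c a i J)) ∧ ∀ a i (v : Fin (r i) → A.H1),
      ∑ J, c a i J * ∏ k, A.dR (J k) (v k) =
        (2 * Real.pi * Complex.I) ^ (w i) * ∑ b, P b a * (B b i v : ℂ)
  /-- the matrix of the periods is invertible -/
  det : P.det ≠ 0

/-- The complex span of the matrices of the elements of `𝔤`: the Lie algebra of `Hg(M)(ℂ)`. -/
def complexLie (B : Fin n → Tensors A r) : Submodule ℂ (Matrix (Fin n) (Fin n) ℂ) :=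
  Submodule.span ℂ {Z | ∃ X, InLie A X ∧ ∃ M : Matrix (Fin n) (Fin n) ℚ, IsLieMatrix B X M ∧
    Z = M.map fun q => (q : ℂ)}

/-- The complex points of the Hodge group of `M`: the group generated by the exponentials of the
elements of its Lie algebra. -/
def hodgeGroup (B : Fin n → Tensors A r) : Subgroup (GL (Fin n) ℂ) :=
  Subgroup.closure {x | ∃ Z ∈ complexLie B,
    (x : Matrix (Fin n) (Fin n) ℂ) = NormedSpace.exp Z}

/-! ### Algebraic groups, torsors and the Mumford-Tate group -/

/-- A subgroup of `GL_R(ℂ)` defined by polynomials with rational coefficients. -/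
def IsAlgebraicSubgroup {R : Type} [Fintype R] [DecidableEq R] (G : Subgroup (GL R ℂ)) : Prop :=
  ∃ I : Set (MvPolynomial (R × R) ℚ), ∀ x : GL R ℂ, x ∈ G ↔
    ∀ p ∈ I, MvPolynomial.aeval (fun b : R × R => (x : Matrix R R ℂ) b.1 b.2) p = 0

/-- The torsor `G · T⁻¹` of `G`: the matrices `F` such that `F T` is an element of `G`. It is
defined over `ℚ̄` if `T` is a matrix with algebraic entries. -/
def torsor (G : Subgroup (GL (Fin n) ℂ)) (T : Matrix (Fin n) (Fin n) ℂ) :
    Set (Matrix (Fin n) (Fin n) ℂ) :=
  {F | ∃ x ∈ G, (x : Matrix (Fin n) (Fin n) ℂ) = F * T}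

variable (A) in
/-- The Hodge structure of `H^1(A)`: the complex number `z` acts on `H_1(A, ℝ) = ℂ ^ g` by
multiplication, and on `H^1(A, ℝ)` by the transposed map, here in the basis of `H^1(A, ℚ)` which is
dual to the basis of the lattice. -/
def hodge (z : ℂ) : Matrix (Fin (2 * g)) (Fin (2 * g)) ℂ :=
  Matrix.of fun i j => ((A.lam.repr (z • A.lam i) j : ℝ) : ℂ)

/-- `R` is the matrix of the action of the complex number `z` on `M`, in the Hodge structure given by
those of `H^1(A)` and of the Tate motives (`z` acts on `ℚ(1)` by `(z z̄)⁻¹`). -/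
def IsHodgeMatrix (B : Fin n → Tensors A r) (z : ℂ) (R : Matrix (Fin n) (Fin n) ℂ) : Prop :=
  ∀ a i (j : Fin (r i) → Fin (2 * g)),
    ∑ j' : Fin (r i) → Fin (2 * g), (∏ k, hodge A z (j k) (j' k)) *
        (B a i (fun k => Pi.single (j' k) 1) : ℂ) =
      (z * (starRingEnd ℂ) z) ^ (w i) * ∑ b, R b a * (B b i (fun k => Pi.single (j k) 1) : ℂ)

/-- The Mumford-Tate group of `M`: the smallest algebraic group over `ℚ` which contains the image of
the Deligne torus. -/
def mumfordTate (B : Fin n → Tensors A r) : Subgroup (GL (Fin n) ℂ) :=
  sInf {G | IsAlgebraicSubgroup G ∧ ∀ z : ℂ, z ≠ 0 → ∃ x ∈ G,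
    IsHodgeMatrix w B z (x : Matrix (Fin n) (Fin n) ℂ)}

/-- **Theorem.** Let `M` be a motive in the tensor category generated by `h^1(A)` and the Tate motives,
with the matrix `P` of periods, and let `G` be an algebraic group over `ℚ` with a torsor over `ℚ̄`
which contains `P`. If an element `x` of the Hodge group of `M` commutes with all elements of `G`,
then it commutes with all elements of the Mumford-Tate group of `M`. -/
theorem result {g s n : ℕ} (A : AbVar g) (r : Fin s → ℕ) (w : Fin s → ℤ)
    (B : Fin n → Tensors A r) (P : Matrix (Fin n) (Fin n) ℂ) (hM : IsMotive w B P)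
    (G : Subgroup (GL (Fin n) ℂ)) (hG : IsAlgebraicSubgroup G) (T : Matrix (Fin n) (Fin n) ℂ)
    (hT : ∀ i j, IsAlgebraic ℚ (T i j)) (hP : P ∈ torsor G T)
    (x : GL (Fin n) ℂ) (hx : x ∈ hodgeGroup B) (hc : ∀ y ∈ G, x * y = y * x) :
    ∀ y ∈ mumfordTate w B, x * y = y * x := by
  have hrelL : ∀ X M, N208.AM.Rel B X M ↔ IsLieMatrix B X M := by
    intro X M
    constructor
    · intro h a i v
      have h1 := congrArg (fun φ : MultilinearMap ℚ (fun _ : Fin (r i) => A.H1) ℚ => φ v) (h a i)
      simp only [N208.AM.dact_apply, _root_.sum_apply, _root_.smul_apply, smul_eq_mul] at h1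
      exact h1
    · intro h a i
      refine MultilinearMap.ext fun v => ?_
      rw [N208.AM.dact_apply, _root_.sum_apply, h a i v]
      rfl
  obtain ⟨hM', Wt, hW⟩ : N208.AM.Mot w B P ∧ ∃ Wt, N208.AM.WRel w B Wt := by
    have hwt : ∃ M, N208.AM.WRel w B M := by
      obtain ⟨M, h⟩ := hM.weight
      refine ⟨M, fun a i => MultilinearMap.ext fun v => ?_⟩
      rw [_root_.smul_apply, _root_.sum_apply, smul_eq_mul, h a i v]
      rfl
    refine ⟨⟨hM.basis, fun X hX => ?_, hwt, hM.det, hM.deRham⟩, hwt⟩
    obtain ⟨M, h⟩ := hM.lie X hX
    exact ⟨M, (hrelL X M).2 h⟩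
  have hb : ∀ j : Fin (2 * g), A.bas j = Pi.single j 1 := fun j => by
    unfold AbVar.bas
    rw [Pi.basisFun_apply]
  have hrel : ∀ z R, N208.AM.HRel w B z R → IsHodgeMatrix w B z R := by
    intro z R h a i j
    have h1 := h a i j
    simp only [hb] at h1
    exact h1
  have hdet : T.det ≠ 0 := by
    obtain ⟨x, -, hxT⟩ := hP
    intro h0
    have h1 : (x : Matrix (Fin n) (Fin n) ℂ).det = 0 := by
      rw [hxT, Matrix.det_mul, h0, mul_zero]
    exact (Matrix.GeneralLinearGroup.det x).ne_zero h1
  obtain ⟨T', h1, h2⟩ := Pool.Agent.R917.alg_inv hT hdet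
  obtain ⟨z, hz, hzT⟩ := hP
  have hH : N208.AM.PtM P {M | ∃ x ∈ G, (x : Matrix (Fin n) (Fin n) ℂ) = M} :=
    ⟨Pool.Agent.R917.algGrp_of hG, T, T', h1, h2, z, hz, hzT⟩
  have hx' : x ∈ N208.AD.HG B := by
    have h3 : complexLie B = Submodule.span ℂ {y | ∃ X ∈ A.NA, ∃ M, N208.AM.Rel B X M ∧
        y = N208.AM.cq M} := by
      unfold complexLie
      congr 1
      ext M
      constructor
      · rintro ⟨X, hX, Mq, hMq, rfl⟩
        exact ⟨X, hX, Mq, (hrelL _ _).2 hMq, rfl⟩
      · rintro ⟨X, hX, Mq, hMq, rfl⟩
        exact ⟨X, hX, Mq, (hrelL _ _).1 hMq, rfl⟩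
    unfold hodgeGroup at hx
    rw [h3] at hx
    exact hx
  obtain ⟨G₁, h3, h4, h5⟩ := N208.AD.cen_torus hM' hW
  have h6 : mumfordTate w B ≤ G₁ := sInf_le ⟨h3, fun z hz => by
    obtain ⟨x, hx, hx'⟩ := h4 z hz
    exact ⟨x, hx, hrel _ _ hx'⟩⟩
  exact fun y hy => h5 x hx' (fun X hX M hM => N208.AD.cen_group hM' hW hH hx' hc hX hM) y (h6 hy)

end Pool.Agent.Results.MP_57341d_ag.CentralizersOfPeriods
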