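import Pool.Agent.N208.BT.PDiv

set_option autoImplicit false

/-!
# The torsors of periods of motives of unitary type: division algebras of prime degree over CM fields,
# arbitrary signatures

Let `A` be an abelian variety over `ℚ̄` and let `M` be any André motive over `ℚ̄` in the tensor
category generated by `h^1(A)` and the Tate motives. Let `P` be the matrix of the periods
of `M`, and let `G ⊆ GL(H_B(M))` be *any* algebraic group over `ℚ` such that the comparison
isomorphism of `M` is a point of a torsor of `G` defined over `ℚ̄`: `P T ∈ G(ℂ)` for some matrix `T`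
with algebraic entries. By theorems of Deligne and André the motivic Galois group of `M` is its
Mumford-Tate group `MT(M)`, and `P` is a point of a torsor of `MT(M)`. The conjecture of Grothendieck
says that `P` is a generic point of this torsor; in particular it predicts that every such `G`
contains `MT(M)` (this prediction is equivalent to: all de Rham-Betti classes in the tensor
constructions of `M` are Hodge classes).

**The part of `A`** (`DivisionPart`). Let `z` be an element of the centre of `End(A) ⊗ ℚ` which is
skew-symmetric for the polarization, such that every element of the centre is a polynomial in `z` on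
the image of `z`. For example let `A` be isogenous to `A₁ ^ k × A₂`, `A₁` simple,
`Hom(A₁, A₂) = 0`, let the centre of `End(A₁) ⊗ ℚ` be a CM field `F`, and `z ∈ F` a generator with
`z̄ = - z`. Let `B` be the algebra of the endomorphisms of the rational vector space `H_1(A, ℚ)` which
commute with `End(A)`, cut down to the image of `z`: a central simple algebra over `F`. Let `S` be a
finite set of real numbers `a ≠ 0`, `S` and `- S` disjoint, such that both `i a` and `- i a` are
eigenvalues of `z` on the tangent space of `A`: so `S` is a set of places of `F` at which the unitary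
group of `B` is not compact, of a signature `(r_a, s_a)` with `r_a, s_a ≥ 1`. We assume:

* `B` is a division algebra of prime degree `p` over `F`. The integers `r_a ≥ 1`, `s_a ≥ 1` with
  `r_a + s_a = p` are arbitrary.
* *separation*: if `B₁ ⊆ B` is a `ℚ`-algebra with `B = B₁ F`, then the elements of `F` in `B₁`
  separate `± i a` and `± i b` for different `a`, `b` in `S`. (So nothing is assumed if `S` has only
  one element.)

Nothing is assumed about the other places of `F`, or about `A₂`. The separation says that `B` does not
descend to a subfield `F₁` of `F` on which one of the embeddings `i a`, `- i a` agrees with one of the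
embeddings `i b`, `- i b`. (If it does and the signatures agree then there are abelian varieties of
this kind with smaller Hodge groups.)

For the general element `A` of a family of abelian varieties with an action of a division algebra
`D = B^op` of degree `p` over a CM field of degree `2 d`, of dimension `d p ^ 2` (the Shimura varieties
of Kottwitz and Clozel), the algebra of endomorphisms is `D`, and `H_1(A, ℚ)` is of rank one over
`D`; so `B` is a division algebra of degree `p`.

**The domain of `M`** (`DomainOf`). We assume that the elements of `[𝔤, 𝔤] ⊗ ℝ` (`𝔤` is the Lie algebra of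
the Hodge group of `A`) which act trivially on the eigenspaces for `± i a`, `a ∈ S`, act on `M` by
matrices which commute with the complex structure `N` of `M`: in other words, the part of the Hodge
group of `A` which acts trivially on these eigenspaces acts trivially on the Mumford-Tate domain
of `M`. If `S` is the set of all places at which the unitary group is not compact, and `A = A₁ ^ k`, then
this is true for all motives `M`. The Mumford-Tate domain of `M` is
then a product of hermitian symmetric domains of type `A_{r_a, s_a}`, one for each element of `S` (or of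
some of them).

**Theorem.** 1. `G` contains the derived group of `MT(M)`: for all elements `Z` of the derived algebra
of the Lie algebra of the Hodge group of `M`, and all complex numbers `t`, the matrix `exp (t Z)` is in
`G`. 2. If the centre of the Lie algebra of the Hodge group acts trivially on `M` (for example for the
adjoint motive), then `G` contains `MT(M)`.

The group `G` is not assumed to be reductive. The case that `F` is imaginary quadratic, `A = A₁` and
`dim A = p ^ 2` is `DivisionAlgebraPeriods` (helper144). New are: arbitrary CM fields, several places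
(where the subgroups of the products of the unitary groups have to be excluded), arbitrary motives with
the given domain. The case of the signature `(1, p - 1)` at all places of `S` is contained in
`ProductsOfBalls` (there for algebras `B` of arbitrary degree).

Nothing is assumed about periods: `AbVar` is the description of an abelian variety over `ℚ̄` by theta
functions (see `Pool/Agent/Y102/AVDefs.lean`, where it is explained why every abelian variety has it),
and the transcendence theorems which are used, the theorem of Schneider and Lang and the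
transcendence of `π`, are proved in this repository.

## Motives

As `h^1(A)` is dual to `h^1(A)(1)`, the motive `M` is a direct factor of a sum of motives
`h^1(A) ^ {⊗ r i} (w i)`. Its Betti realization is a space of families of multilinear forms with
rational values, in `r i` variables in `H_1(A, ℚ)`, with a basis `B`. It is the image of a motivated
projector, and the realizations of motivated classes are Hodge classes and de Rham-Betti classes; so
it is stable under the Lie algebra `𝔤` of the endomorphisms of `H_1(A, ℚ)` which annihilate all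
classes that are Hodge classes and de Rham-Betti classes (`InLie`), and under the weights. The de Rham
realization has a basis which consists of combinations of products of elements of `H^1_dR(A / ℚ̄)`
with algebraic coefficients. The matrix `P` of the periods expresses it in terms of the basis
`(2 π i) ^ (w i) B` of the Betti realization (`IsMotive`). By the theorem of Deligne `𝔤` is the Lie
algebra of the Hodge group of `A`, and its image in the endomorphisms of `M` is the Lie algebra of
the Hodge group of `M`.

## Proof

Let `L` be the Lie algebra of `G`, and let `𝔮` be the set of the `X` in `𝔤` whose action on `M` is in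
`L` up to a multiple of the weight operator. By the theorem of Schneider and Lang `𝔮` acts semisimply on
`H_1(A, ℚ)`, with the same commutant as `𝔤` (`Pool.Agent.N208.AM.qM_full`).

1. For `a ∈ S` let `W` be a simple submodule over `𝔤 ⊗ ℝ` of the sum of the eigenspaces of `± i a`. It is
   a complex vector space with the complex structure `z / a`, with a hermitian form `h` of
   signature `(r_a, s_a)`. The image `𝔯` of `[𝔮, 𝔮] ⊗ ℝ` in `u(h)` is irreducible, so `𝔮` is not
   commutative on the image of `z`. By a theorem of helper144 the space `F 𝔮` contains all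
   commutators of the division algebra `B`, since its degree is a prime number. So
   `𝔯 + i 𝔯 = sl(W)`, and it follows that `𝔯 = su(h)` (`G_PD`).
2. For two elements `a`, `b` of `S` let `𝔟` be the image of `[𝔮, 𝔮] ⊗ ℝ` in `su(h_a) × su(h_b)`.
   It is everything, or the graph of an isomorphism. In the second case the operators
   `i h(·, u) u`, `u` isotropic, correspond to each other up to sign, since they are the elements `E`
   such that `[E, [E, X]]` is a multiple of `E` for all `X`; and one constructs a linear or antilinear
   bijection which intertwines (`G_PA`). In the antilinear case it can be an anti-isometry, since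
   the forms are indefinite. This contradicts the separation.
3. So `[𝔮, 𝔮] ⊗ ℝ` and `[𝔤, 𝔤] ⊗ ℝ` have the same image on the sum of the eigenspaces for `± i a`,
   `a ∈ S` (`G_SJ`). The theorem follows by a lemma on real Lie algebras of helper113
   (`Pool.Agent.N113.BT.mem_of_sup`).
-/

open Module Matrix Pool.Agent.Y102 Pool.Agent.W516.DR Pool.Agent.H204R3.GP

noncomputable section

namespace Pool.Agent.Results.MP_57341d_ag.DivisionAlgebrasOfPrimeDegree

variable {g : ℕ} (A : AbVar g)

/-! ### The part of the abelian variety -/

/-- `P` is an endomorphism of `A` (up to isogeny), in terms of its action on `H_1(A, ℚ)`: it respects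
the de Rham structure. (By the theorem of Bost, which is proved in `Pool.Agent.Y102.AbVar.hodge_end`,
these are the elements of `End(A) ⊗ ℚ`.) -/
def IsEndo (P : Module.End ℚ A.H1) : Prop := IsDeRhamBettiEnd QBar A.dR P

/-- The endomorphism `X` of `H_1(A, ℚ)` commutes with the endomorphisms of `A`. -/
def Commutes (X : Module.End ℚ A.H1) : Prop := ∀ P, IsEndo A P → X * P = P * X

/-- `x` is an eigenvector of `z` for the eigenvalue `i a` (or zero); here `H_1(A, ℝ) = ℂ ^ g` is the
tangent space, and `A.ext z` is the real linear extension of `z`. -/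
def Eigen (z : Module.End ℚ A.H1) (a : ℝ) (x : Fin g → ℂ) : Prop :=
  A.ext z x = ((a : ℂ) * Complex.I) • x

/-- The restriction of the endomorphism `X` to the image of `z` is `q(z)`. -/
def IsPoly (z X : Module.End ℚ A.H1) (q : Polynomial ℚ) : Prop :=
  X * z = Polynomial.aeval z q * z

/-- The value `q(i a)` of the polynomial `q`. -/
def value (a : ℝ) (q : Polynomial ℚ) : ℂ := Polynomial.aeval ((a : ℂ) * Complex.I) q

/-- **The separation.** If the subalgebra `B₁` generates together with `z` the algebra of all
endomorphisms which commute with the endomorphisms of `A` (on the image of `z`), then `B₁` contains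
(on the image of `z`) polynomials in `z` which separate the numbers `± i a` and `± i b` for different
elements `a`, `b` of `S`. -/
def Separated (z : Module.End ℚ A.H1) (S : Finset ℝ) : Prop :=
  ∀ B₁ : Subalgebra ℚ (Module.End ℚ A.H1), (∀ X ∈ B₁, Commutes A X) →
    (∀ X, Commutes A X → ∃ X' ∈ Algebra.adjoin ℚ ((B₁ : Set (Module.End ℚ A.H1)) ∪ {z}),
      X * z = X' * z) →
    ∀ a b : ℝ, (a ∈ S ∨ -a ∈ S) → (b ∈ S ∨ -b ∈ S) → a ≠ b → a ≠ -b →
      ∃ q, ∃ X ∈ B₁, IsPoly A z X q ∧ value a q ≠ value b q

/-- `z` is an endomorphism in the centre of the algebra of the endomorphisms, it is skew-symmetric for the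
polarization, and the elements of the centre are polynomials in `z` on the image of `z`. -/
structure CentralPart (z : Module.End ℚ A.H1) : Prop where
  endo : IsEndo A z
  central : ∀ P, IsEndo A P → z * P = P * z
  skew : ∀ u v, A.om (z u) v + A.om u (z v) = 0
  generates : ∀ P, IsEndo A P → (∀ Q, IsEndo A Q → P * Q = Q * P) → ∃ q, IsPoly A z P q

/-- The numbers `i a`, `a ∈ S`, are different from zero and not conjugate to each other, and `i a` and
`- i a` are eigenvalues of `z` on the tangent space. -/
structure Indefinite (z : Module.End ℚ A.H1) (S : Finset ℝ) : Prop where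
  disjoint : ∀ a ∈ S, a ≠ 0 ∧ -a ∉ S
  indefinite : ∀ a ∈ S, (∃ x, x ≠ 0 ∧ Eigen A z a x) ∧ ∃ x, x ≠ 0 ∧ Eigen A z (-a) x

/-- The commutant of the endomorphisms is a division algebra on the image of `z`: if `X` is not zero on
the image of `z` then it is injective there. -/
def IsDivision (z : Module.End ℚ A.H1) : Prop :=
  ∀ X, Commutes A X → (∀ v, X (z v) = 0 → z v = 0) ∨ ∀ v, X (z v) = 0

/-- The commutant of the endomorphisms (restricted to the image of `z`) is of dimension `p ^ 2` over its
centre `ℚ[z]`: the space of the `X z` has dimension `p ^ 2` times the dimension of the space of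
the `q(z) z`. -/
def HasDegree (z : Module.End ℚ A.H1) (p : ℕ) : Prop :=
  Set.finrank ℚ {Y | ∃ X, Commutes A X ∧ Y = X * z} =
    p ^ 2 * Set.finrank ℚ {Y | ∃ X q, IsPoly A z X q ∧ Y = X * z}

/-- **A unitary part** given by a division algebra of prime degree `p`, with indefinite signatures at the
places of the finite set `S`. -/
structure DivisionPart (z : Module.End ℚ A.H1) (S : Finset ℝ) (p : ℕ) : Prop where
  /-- `z` is central and skew-symmetric and it generates the centre on its image -/
  part : CentralPart A z
  /-- the places -/
  places : Indefinite A z S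
  /-- the commutant of the endomorphisms is a division algebra on the image of `z` -/
  division : IsDivision A z
  /-- the degree `p` of this division algebra over its centre `ℚ[z]` is a prime number -/
  prime : p.Prime
  degree : HasDegree A z p
  /-- the separation -/
  separated : Separated A z S

/-! ### The Lie algebra -/

/-- The multilinear forms in `2m` variables in the rational homology. -/
abbrev Form (m : ℕ) : Type := MultilinearMap ℚ (fun _ : Fin m × Fin 2 => A.H1) ℚ

/-- `φ` is a de Rham-Betti class in `H^1(A) ^ {⊗ 2m} (m)`. -/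
def IsDRB {m : ℕ} (φ : Form A m) : Prop :=
  IsDeRhamBettiForm QBar A.dR (2 * Real.pi * Complex.I) m φ

/-- `φ` is a Hodge class in `H^1(A) ^ {⊗ 2m} (m)`. -/
def IsHodge {m : ℕ} (φ : Form A m) : Prop := IsHodgeTensor (A.per : A.H1 →+ (Fin g → ℂ)) φ

/-- The endomorphism `X` annihilates the form `φ` (as a derivation). -/
def Annihilates {m : ℕ} (X : Module.End ℚ A.H1) (φ : Form A m) : Prop :=
  ∀ v, ∑ k, φ (Function.update v k (X (v k))) = 0

/-- `X` is in the Lie algebra `𝔤`: it annihilates all classes that are Hodge classes and
de Rham-Betti classes. -/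
def InLie (X : Module.End ℚ A.H1) : Prop :=
  ∀ (m : ℕ) (φ : Form A m), IsHodge A φ → IsDRB A φ → Annihilates A X φ

/-! ### Motives -/

variable {s n : ℕ} (r : Fin s → ℕ) (w : Fin s → ℤ)

/-- The Betti realization of the sum of the motives `h^1(A) ^ {⊗ r i} (w i)`: families of multilinear
forms in `r i` variables in the rational homology. -/
abbrev Tensors : Type := ∀ i : Fin s, MultilinearMap ℚ (fun _ : Fin (r i) => A.H1) ℚ

variable {A r}

/-- `M` is the matrix of the action of the endomorphism `X` of the rational homology of `A` (as a
derivation) on the space of tensors with the basis `B`. -/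
def IsLieMatrix (B : Fin n → Tensors A r) (X : Module.End ℚ A.H1)
    (M : Matrix (Fin n) (Fin n) ℚ) : Prop :=
  ∀ a i v, ∑ k, B a i (Function.update v k (X (v k))) = ∑ b, M b a * B b i v

/-- The subspace with the basis `B` is the Betti realization of a direct factor `M` of the sum of the
motives `h^1(A) ^ {⊗ r i} (w i)`, and `P` is the matrix of the periods of `M` for the basis `B` and for
some basis of the de Rham realization of `M` over `ℚ̄`. -/
structure IsMotive (B : Fin n → Tensors A r) (P : Matrix (Fin n) (Fin n) ℂ) : Prop where
  /-- `B` is a basis of a subspace -/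
  basis : LinearIndependent ℚ B
  /-- the subspace is stable under `𝔤` -/
  lie : ∀ X, InLie A X → ∃ M : Matrix (Fin n) (Fin n) ℚ, IsLieMatrix B X M
  /-- the subspace is stable under the weights -/
  weight : ∃ M : Matrix (Fin n) (Fin n) ℚ, ∀ a i v,
    ((r i : ℚ) - 2 * w i) * B a i v = ∑ b, M b a * B b i v
  /-- the de Rham realization has a basis of elements with algebraic coefficients in terms of the
  tensor products of the elements of the basis of `H^1_dR(A / ℚ̄)` -/
  deRham : ∃ c : Fin n → ∀ i : Fin s, (Fin (r i) → Fin g ⊕ Fin g) → ℂ,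
    (∀ a i J, IsAlgebraic ℚ (c a i J)) ∧ ∀ a i (v : Fin (r i) → A.H1),
      ∑ J, c a i J * ∏ k, A.dR (J k) (v k) =
        (2 * Real.pi * Complex.I) ^ (w i) * ∑ b, P b a * (B b i v : ℂ)
  /-- the matrix of the periods is invertible -/
  det : P.det ≠ 0

/-! ### The Mumford-Tate domain -/

/-- `N` is the matrix of the action on `M` of the multiplication with `i` on `H_1(A, ℝ) = ℂ ^ g` (as a
derivation): the generator of the Lie algebra of the circle in the Hodge structure of `M`. -/
def IsComplexStructure (B : Fin n → Tensors A r) (N : Matrix (Fin n) (Fin n) ℝ) : Prop :=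
  ∀ a i (j : Fin (r i) → Fin (2 * g)),
    ∑ k, ∑ l : Fin (2 * g), A.lam.repr (Complex.I • A.lam (j k)) l *
        (B a i (Function.update (fun p => Pi.single (j p) 1) k (Pi.single l 1)) : ℝ) =
      ∑ b, N b a * (B b i (fun p => Pi.single (j p) 1) : ℝ)

variable (A) in
/-- The derived algebra `[𝔤, 𝔤]`. -/
def derivedLie : Submodule ℚ (Module.End ℚ A.H1) :=
  Submodule.span ℚ {Z | ∃ X, InLie A X ∧ ∃ Y, InLie A Y ∧ Z = X * Y - Y * X}

/-- The part of the Hodge group which acts trivially on the eigenspaces of `z` for `± i a`, `a ∈ S`, acts
trivially on the Mumford-Tate domain of `M`: if an element of `[𝔤, 𝔤] ⊗ ℝ`, which acts on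
`H_1(A, ℝ) = ℂ ^ g` by `p.1` and on `M` by `p.2`, acts trivially on these eigenspaces, then `p.2`
commutes with the complex structure `N` of `M`. -/
def DomainOf (z : Module.End ℚ A.H1) (S : Finset ℝ) (B : Fin n → Tensors A r)
    (N : Matrix (Fin n) (Fin n) ℝ) : Prop :=
  ∀ p ∈ Submodule.span ℝ {p : Module.End ℝ (Fin g → ℂ) × Matrix (Fin n) (Fin n) ℝ |
      ∃ X ∈ derivedLie A, ∃ M : Matrix (Fin n) (Fin n) ℚ, IsLieMatrix B X M ∧
        p = (A.ext X, M.map fun q => (q : ℝ))},
    (∀ a ∈ S, ∀ x, Eigen A z a x ∨ Eigen A z (-a) x → p.1 x = 0) → p.2 * N = N * p.2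

/-- The Lie algebra of the Hodge group of `M`: the smallest rational Lie algebra whose real span
contains the complex structure `N`. -/
def hodgeLie (N : Matrix (Fin n) (Fin n) ℝ) : Submodule ℚ (Matrix (Fin n) (Fin n) ℚ) :=
  sInf {L | (∀ x ∈ L, ∀ y ∈ L, x * y - y * x ∈ L) ∧
    N ∈ Submodule.span ℝ {M | ∃ x ∈ L, M = x.map fun q => (q : ℝ)}}

/-- The derived algebra. -/
def derived (L : Submodule ℚ (Matrix (Fin n) (Fin n) ℚ)) :
    Submodule ℚ (Matrix (Fin n) (Fin n) ℚ) :=
  Submodule.span ℚ {z | ∃ x ∈ L, ∃ y ∈ L, z = x * y - y * x}

/-- The centre of the Lie algebra acts trivially: an element of `𝔤` which acts on `M` like a central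
element acts trivially. -/
def CentreActsTrivially (B : Fin n → Tensors A r) : Prop :=
  ∀ X, InLie A X → (∀ Y, InLie A Y → IsLieMatrix B (X * Y - Y * X) 0) → IsLieMatrix B X 0

/-! ### Algebraic groups, torsors and the Mumford-Tate group -/

/-- A subgroup of `GL_R(ℂ)` defined by polynomials with rational coefficients. -/
def IsAlgebraicSubgroup {R : Type} [Fintype R] [DecidableEq R] (G : Subgroup (GL R ℂ)) : Prop :=
  ∃ I : Set (MvPolynomial (R × R) ℚ), ∀ x : GL R ℂ, x ∈ G ↔
    ∀ p ∈ I, MvPolynomial.aeval (fun b : R × R => (x : Matrix R R ℂ) b.1 b.2) p = 0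

/-- The torsor `G · T⁻¹` of `G`: the matrices `F` such that `F T` is an element of `G`. It is
defined over `ℚ̄` if `T` is a matrix with algebraic entries. -/
def torsor (G : Subgroup (GL (Fin n) ℂ)) (T : Matrix (Fin n) (Fin n) ℂ) :
    Set (Matrix (Fin n) (Fin n) ℂ) :=
  {F | ∃ x ∈ G, (x : Matrix (Fin n) (Fin n) ℂ) = F * T}

variable (A) in
/-- The Hodge structure of `H^1(A)`: the complex number `z` acts on `H_1(A, ℝ) = ℂ ^ g` by
multiplication, and on `H^1(A, ℝ)` by the transposed map, here in the basis of `H^1(A, ℚ)` which is
dual to the basis of the lattice. -/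
def hodge (z : ℂ) : Matrix (Fin (2 * g)) (Fin (2 * g)) ℂ :=
  Matrix.of fun i j => ((A.lam.repr (z • A.lam i) j : ℝ) : ℂ)

/-- `R` is the matrix of the action of the complex number `z` on `M`, in the Hodge structure given by
those of `H^1(A)` and of the Tate motives (`z` acts on `ℚ(1)` by `(z z̄)⁻¹`). -/
def IsHodgeMatrix (B : Fin n → Tensors A r) (z : ℂ) (R : Matrix (Fin n) (Fin n) ℂ) : Prop :=
  ∀ a i (j : Fin (r i) → Fin (2 * g)),
    ∑ j' : Fin (r i) → Fin (2 * g), (∏ k, hodge A z (j k) (j' k)) *
        (B a i (fun k => Pi.single (j' k) 1) : ℂ) =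
      (z * (starRingEnd ℂ) z) ^ (w i) * ∑ b, R b a * (B b i (fun k => Pi.single (j k) 1) : ℂ)

/-- The Mumford-Tate group of `M`: the smallest algebraic group over `ℚ` which contains the image of
the Deligne torus. -/
def mumfordTate (B : Fin n → Tensors A r) : Subgroup (GL (Fin n) ℂ) :=
  sInf {G | IsAlgebraicSubgroup G ∧ ∀ z : ℂ, z ≠ 0 → ∃ x ∈ G,
    IsHodgeMatrix w B z (x : Matrix (Fin n) (Fin n) ℂ)}

variable (A) in
theorem comm_iff (X : Module.End ℚ A.H1) : Commutes A X ↔ X ∈ N208.BT.CB A :=
  ⟨fun h P hP => h P (A.mem_EA.1 hP), fun h P hP => h P (A.mem_EA.2 hP)⟩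

variable (A) in
theorem deg_eq {z : Module.End ℚ A.H1} {p : ℕ} (h : HasDegree A z p) :
    finrank ℚ ((N208.BT.CB A).map (LinearMap.mulRight ℚ z)) =
      p ^ 2 * finrank ℚ ((Algebra.adjoin ℚ {z}).toSubmodule.map (LinearMap.mulRight ℚ z)) := by
  have e1 : Submodule.span ℚ {Y : Module.End ℚ A.H1 | ∃ X, Commutes A X ∧ Y = X * z} =
      (N208.BT.CB A).map (LinearMap.mulRight ℚ z) := by
    refine le_antisymm (Submodule.span_le.2 ?_) ?_
    · rintro _ ⟨X, hX, rfl⟩
      exact Submodule.mem_map_of_mem (f := LinearMap.mulRight ℚ z) ((comm_iff A X).1 hX)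
    · rintro _ ⟨X, hX, rfl⟩
      exact Submodule.subset_span ⟨X, (comm_iff A X).2 hX, rfl⟩
  have e2 : Submodule.span ℚ {Y : Module.End ℚ A.H1 | ∃ X q, IsPoly A z X q ∧ Y = X * z} =
      (Algebra.adjoin ℚ {z}).toSubmodule.map (LinearMap.mulRight ℚ z) := by
    refine le_antisymm (Submodule.span_le.2 ?_) ?_
    · rintro _ ⟨X, q, hX, rfl⟩
      have h1 : X * z = LinearMap.mulRight ℚ z (Polynomial.aeval z q) := hX
      rw [h1]
      refine Submodule.mem_map_of_mem (f := LinearMap.mulRight ℚ z) ?_
      exact Polynomial.aeval_mem_adjoin_singleton ℚ z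
    · rintro _ ⟨X, hX, rfl⟩
      have hX' : X ∈ Algebra.adjoin ℚ {z} := hX
      rw [Algebra.adjoin_singleton_eq_range_aeval] at hX'
      obtain ⟨q, hq⟩ := hX'
      refine Submodule.subset_span ⟨X, q, ?_, rfl⟩
      have h2 : Polynomial.aeval z q = X := hq
      show X * z = Polynomial.aeval z q * z
      rw [h2]
  have h1 := h
  unfold HasDegree Set.finrank at h1
  rw [e1, e2] at h1
  exact h1

variable (A) in
theorem DivisionPart.toHD {z : Module.End ℚ A.H1} {S : Finset ℝ} {p : ℕ}
    (h : DivisionPart A z S p) : N208.BT.HD A z S p where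
  mem := A.mem_EA.2 h.part.endo
  cen := fun P hP => h.part.central P (A.mem_EA.1 hP)
  skew := h.part.skew
  gen := fun P hP hc => h.part.generates P (A.mem_EA.1 hP) fun Q hQ => hc Q (A.mem_EA.2 hQ)
  ne := fun a ha => (h.places.disjoint a ha).1
  e1 := fun a ha => (h.places.indefinite a ha).1
  e2 := fun a ha => (h.places.indefinite a ha).2
  disj := fun a ha => (h.places.disjoint a ha).2
  sep := fun B₁ h1 h2 => h.separated B₁ (fun X hX => (comm_iff A X).2 (h1 X hX))
    fun X hX => h2 X ((comm_iff A X).1 hX)
  pd := by
    refine ⟨h.prime, fun X hX h0 v hv => ?_, deg_eq A h.degree⟩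
    rcases h.division X ((comm_iff A X).2 hX) with h1 | h1
    · exact h1 v hv
    · exact absurd (LinearMap.ext fun v => h1 v) h0

/-- **Theorem.** Let `z` be a central skew-symmetric endomorphism of the abelian variety `A` with a
unitary part given by a division algebra of prime degree `p`, with indefinite signatures at the places
of `S`, with separation. Let `M` be a motive in the tensor category generated by `h^1(A)` and the Tate
motives, with the matrix `P` of periods and the complex structure `N`, such that the part of the Hodge
group of `A` which acts trivially on the eigenspaces for `± i a`, `a ∈ S`, acts trivially on the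
Mumford-Tate domain of `M`. Let `G` be an algebraic group over `ℚ` with a torsor over `ℚ̄` which
contains `P`.

1. For all elements `Z` of the derived algebra of the Lie algebra of the Hodge group of `M` and all
   complex numbers `t` the matrix `exp (t Z)` is in `G`.
2. If the centre acts trivially on `M`, then the Mumford-Tate group of `M` is contained in `G`. -/
theorem result {g s n : ℕ} (A : AbVar g) (z : Module.End ℚ A.H1) (S : Finset ℝ) (p : ℕ)
    (hA : DivisionPart A z S p) (r : Fin s → ℕ) (w : Fin s → ℤ)
    (B : Fin n → Tensors A r) (P : Matrix (Fin n) (Fin n) ℂ) (hM : IsMotive w B P)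
    (N : Matrix (Fin n) (Fin n) ℝ) (hN : IsComplexStructure B N) (hD : DomainOf z S B N)
    (G : Subgroup (GL (Fin n) ℂ)) (hG : IsAlgebraicSubgroup G) (T : Matrix (Fin n) (Fin n) ℂ)
    (hT : ∀ i j, IsAlgebraic ℚ (T i j)) (hP : P ∈ torsor G T) :
    (∀ Z ∈ derived (hodgeLie N), ∀ t : ℂ, ∃ x ∈ G,
      (x : Matrix (Fin n) (Fin n) ℂ) = NormedSpace.exp (t • Z.map fun q => (q : ℂ))) ∧
    (CentreActsTrivially B → mumfordTate w B ≤ G) := by
  obtain ⟨hM', Wt, hW⟩ : N208.AM.Mot w B P ∧ ∃ Wt, N208.AM.WRel w B Wt := by
    have hwt : ∃ M, N208.AM.WRel w B M := by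
      obtain ⟨M, h⟩ := hM.weight
      refine ⟨M, fun a i => MultilinearMap.ext fun v => ?_⟩
      rw [_root_.smul_apply, _root_.sum_apply, smul_eq_mul, h a i v]
      rfl
    refine ⟨⟨hM.basis, fun X hX => ?_, hwt, hM.det, hM.deRham⟩, hwt⟩
    obtain ⟨M, h⟩ := hM.lie X hX
    refine ⟨M, fun a i => MultilinearMap.ext fun v => ?_⟩
    rw [N208.AM.dact_apply, _root_.sum_apply, h a i v]
    rfl
  have hrelL : ∀ X M, N208.AM.Rel B X M ↔ IsLieMatrix B X M := by
    intro X M
    constructor
    · intro h a i v
      have h1 := congrArg (fun φ : MultilinearMap ℚ (fun _ : Fin (r i) => A.H1) ℚ => φ v) (h a i)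
      simp only [N208.AM.dact_apply, _root_.sum_apply, _root_.smul_apply, smul_eq_mul] at h1
      exact h1
    · intro h a i
      refine MultilinearMap.ext fun v => ?_
      rw [N208.AM.dact_apply, _root_.sum_apply, h a i v]
      rfl
  have hb : ∀ j : Fin (2 * g), A.bas j = Pi.single j 1 := fun j => by
    unfold AbVar.bas
    rw [Pi.basisFun_apply]
  have hrel : ∀ z R, N208.AM.HRel w B z R → IsHodgeMatrix w B z R := by
    intro z R h a i j
    have h1 := h a i j
    simp only [hb] at h1
    exact h1
  have hNC : CentreActsTrivially B → N208.AM.NoCentre B := fun hc X hX h =>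
    (hrelL X 0).2 (hc X hX fun Y hY => (hrelL _ 0).1 (h Y hY))
  -- the complex structure
  have hNR : N208.AM.RelR B AbVar.JJ N := by
    intro a i
    refine Basis.ext_multilinear (fun _ => A.lam) fun j => ?_
    have h1 := hN a i j
    rw [N208.AM.dact_apply, _root_.sum_apply]
    have h2 : (fun p => A.lam (j p)) = fun p => A.per (Pi.single (j p) 1) := by
      funext p
      rw [← hb, A.per_bas]
    have h3 : ∀ b, (N b a • A.Phi (B b i)) (fun p => A.lam (j p)) =
        N b a * (B b i (fun p => Pi.single (j p) 1) : ℝ) := fun b => by
      rw [_root_.smul_apply, smul_eq_mul, h2, A.Phi_per]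
    rw [Finset.sum_congr rfl fun b _ => h3 b, ← h1]
    refine Finset.sum_congr rfl fun k _ => ?_
    rw [AbVar.JJ_apply, ← A.lam.sum_repr (Complex.I • A.lam (j k)), MultilinearMap.map_update_sum]
    simp only [A.lam.sum_repr]
    refine Finset.sum_congr rfl fun l _ => ?_
    rw [MultilinearMap.map_update_smul, smul_eq_mul]
    congr 1
    have h4 : A.lam l = A.per (Pi.single l 1) := by rw [← hb, A.per_bas]
    rw [h2, h4, N208.AM.update_per, A.Phi_per]
  have hrig := N208.BT.rpartD (hA.toHD)
  have hα : N208.BT.DomU (N208.BT.US A z S) B N := by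
    intro p hp h0
    refine hD p ?_ fun a ha x hx => h0 x ⟨a, ha, ?_⟩
    · refine (Submodule.span_mono ?_) hp
      rintro _ ⟨X, hX, M, hM, rfl⟩
      refine ⟨X, ?_, M, (hrelL _ _).1 hM, rfl⟩
      refine (Submodule.span_mono ?_) hX
      rintro _ ⟨X, hX, Y, hY, rfl⟩
      exact ⟨X, hX, Y, hY, rfl⟩
    · have hz : z ∈ A.EA := A.mem_EA.2 hA.part.endo
      rcases hx with hx | hx
      · exact N208.BT.eig_mem_V0 hz rfl hx
      · exact N208.BT.eig_mem_V0 hz (by ring) hx
  -- the group
  have hdet : T.det ≠ 0 := by
    obtain ⟨x, -, hxT⟩ := hP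
    intro h0
    have h1 : (x : Matrix (Fin n) (Fin n) ℂ).det = 0 := by
      rw [hxT, Matrix.det_mul, h0, mul_zero]
    exact (Matrix.GeneralLinearGroup.det x).ne_zero h1
  obtain ⟨T', h1, h2⟩ := Pool.Agent.R917.alg_inv hT hdet
  obtain ⟨x, hx, hxT⟩ := hP
  have hH : N208.AM.PtM P _ := ⟨Pool.Agent.R917.algGrp_of hG, T, T', h1, h2, x, hx, hxT⟩
  refine ⟨fun Z hZ t => ?_, fun hA => ?_⟩
  · obtain ⟨L, hL1, hL2, hL3⟩ := N208.BT.main_derU hM' hW hH hrig hNR hα
    have h3 : hodgeLie N ≤ L := sInf_le ⟨hL1, hL2⟩
    have h4 : derived (hodgeLie N) ≤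
        N208.AM.LQ {M | ∃ x ∈ G, (x : Matrix (Fin n) (Fin n) ℂ) = M} := by
      unfold derived
      rw [Submodule.span_le]
      rintro _ ⟨x, hx, y, hy, rfl⟩
      exact hL3 x (h3 hx) y (h3 hy)
    exact Pool.Agent.R917.exp_mem hH.grp fun d => (h4 hZ d).smul t
  · have hc : N208.AM.NoCentre B := hNC hA
    refine sInf_le ⟨hG, fun z hz => ?_⟩
    obtain ⟨⟨x, hx, hx'⟩, h4⟩ := N208.BT.main_BU hM' hW hH hc hrig hNR hα hz
    refine ⟨x, hx, ?_⟩
    rw [hx']
    exact hrel _ _ h4

end Pool.Agent.Results.MP_57341d_ag.DivisionAlgebrasOfPrimeDegree
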