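import Pool.Agent.N121.FX.Main

/-!
# Periods of all the double covers of the line with fixed and moving branch points

Let `z 0 < … < z N` be real numbers (algebraic or not) and let `A ≠ ∅` be a set of positions. The branch points at the
positions `k ∈ A` move, the others are fixed at `z k`. For each `S ⊆ {0, …, N}` which contains a moving position let
`C_S(t) : y² = ∏ k ∈ S, (x - e k)` be the hyperelliptic curve of genus `g = ⌊(|S| - 1) / 2⌋`, where `e k = t k` for `k ∈ A`
and `e k = z k` for `k ∉ A`: a family over the space of the `t`, whose dimension can be one, while the number of the curves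
is exponential in `N`. All these curves are quotients of the `(ℤ/2)^(N+1)`-cover `y k² = x - e k` of the line.

The periods of the product of all the curves `C_S(t)` and `2 π i` are a point of the torsor of the `(X, lam)` with
`X_S polDR X_Sᵀ = lam polB` for all `S`, a torsor under `{(g_S) : g_S ∈ GSp_(2g), equal multipliers}`. The theorem says
that for almost all algebraic points `t` there are no other relations, in growing degree and height. If one point moves
then there are at most `T ^ (1 / ω(T))` exceptional points of height at most `T` over each number field of degree at most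
`ω(T)`, where `ω(T) → ∞`. That the joint monodromy of the curves is Zariski dense in the product of the symplectic groups
for the families with fixed branch points, of both parities, is proved in `Pool.Agent.N121.FX` (the theorem for the
relations over `ℂ(t)` is `Pool.Agent.N121.FX.relA`).
-/

set_option autoImplicit false

open Filter NumberField Polynomial

namespace Pool.Agent.Results.MP_57341d_ag.FixedMovingBranchPoints

variable {N : ℕ}

/-- the branch points: `t k` at the moving positions `k ∈ A`, and `z k` at the others -/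
noncomputable def points (z : Fin (N + 1) → ℝ) (A : Finset (Fin (N + 1))) (t : {k // k ∈ A} → ℂ) (k : Fin (N + 1)) : ℂ :=
  if h : k ∈ A then t ⟨k, h⟩ else (z k : ℂ)

/-- the domain: the real parts of the branch points are increasing -/
def Domain (z : Fin (N + 1) → ℝ) (A : Finset (Fin (N + 1))) : Set ({k // k ∈ A} → ℂ) :=
  {t | ∀ i k, i < k → (points z A t i).re < (points z A t k).re}

/-- the sets of positions which contain a moving one -/
abbrev Sets (A : Finset (Fin (N + 1))) : Type := {S : Finset (Fin (N + 1)) // (S ∩ A).Nonempty}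

/-- `|S| - 1` -/
def deg {A : Finset (Fin (N + 1))} (S : Sets A) : ℕ := S.1.card - 1

theorem card_eq {A : Finset (Fin (N + 1))} (S : Sets A) : S.1.card = deg S + 1 :=
  Pool.Agent.N121.FX.card_dgA S

/-- the elements of `S` in increasing order -/
def enum {A : Finset (Fin (N + 1))} (S : Sets A) : Fin (deg S + 1) ↪o Fin (N + 1) := S.1.orderEmbOfFin (card_eq S)

/-- twice the genus of the curves with `m + 1` finite branch points -/
abbrev dim (m : ℕ) : ℕ := 2 * (m / 2)

/-- a branch of the square root of `∏ (x - e i)`, for `x` on the segment from `e l` to `e (l + 1)`: for increasing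
real parts of the `e i` all factors are powers of numbers of real part `≥ 0` -/
noncomputable def root {m : ℕ} (e : Fin (m + 1) → ℂ) (l : Fin m) (x : ℂ) : ℂ :=
  Complex.I ^ (m % 2 + (l : ℕ) % 2) * ∏ i : Fin (m + 1), (if (i : ℕ) ≤ l then x - e i else e i - x) ^ (1 / 2 : ℂ)

/-- it is a square root -/
theorem root_sq {m : ℕ} (e : Fin (m + 1) → ℂ) (l : Fin m) (x : ℂ) : root e l x ^ 2 = ∏ i, (x - e i) :=
  Pool.Agent.N121.FX.rt1_sq e l x

/-- the point of the segment from `p` to `q` -/
noncomputable def seg (p q : ℂ) (t : ℝ) : ℂ := (1 - t) * p + t * q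

/-- the period `∮ x ^ j dx / y`, `y² = ∏ (x - e i)`, over the loop around the segment from `e l` to `e (l + 1)`, that is
twice the integral over the segment -/
noncomputable def period {m : ℕ} (e : Fin (m + 1) → ℂ) (l j : Fin m) : ℂ :=
  2 * ∫ t in (0 : ℝ)..1, (seg (e l.castSucc) (e l.succ) t) ^ (j : ℕ) /
    root e l (seg (e l.castSucc) (e l.succ) t) * (e l.succ - e l.castSucc)

/-- the `i`-th form is `∑ form m F i k * x ^ k dx / y`: for `i < g = ⌊m / 2⌋` it is `x ^ i dx / y`, and for `i = g + i'`
it is the form of the second kind `∑_(i'<k) (i' - k)/2 c_(i'+k+2) x ^ k dx / y`, where `F = ∑ c_k x ^ k` -/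
noncomputable def form (m : ℕ) (F : ℂ[X]) (i k : ℕ) : ℂ :=
  if i < m / 2 then (if k = i then 1 else 0) else
    (if i - m / 2 < k then (((i - m / 2 : ℕ) : ℂ) - (k : ℂ)) / 2 * F.coeff (i - m / 2 + k + 2) else 0)

/-- the matrix of the periods of the `2 g` forms over the first `2 g` loops, `g = ⌊m / 2⌋` -/
noncomputable def periods {m : ℕ} (e : Fin (m + 1) → ℂ) : Matrix (Fin (dim m)) (Fin (dim m)) ℂ :=
  Matrix.of fun l i => ∑ k : Fin m,
    period e (Fin.castLE (by unfold dim; omega) l) k * form m (∏ r, (X - C (e r))) (i : ℕ) (k : ℕ)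

/-- the period matrices of all the curves `C_S(t)` -/
noncomputable def curves (z : Fin (N + 1) → ℝ) (A : Finset (Fin (N + 1))) (t : {k // k ∈ A} → ℂ) (S : Sets A) :
    Matrix (Fin (dim (deg S))) (Fin (dim (deg S))) ℂ := periods fun r => points z A t (enum S r)

/-- the polarisation in terms of the forms: the standard symplectic matrix -/
def polDR (m : ℕ) : Matrix (Fin (dim m)) (Fin (dim m)) ℚ :=
  Matrix.of fun r s => if (s : ℕ) = r + m / 2 then 1 else if (r : ℕ) = s + m / 2 then -1 else 0

/-- the polarisation in terms of the loops: `2 (-1) ^ r` at `(r, s)`, `|r - s| = 1` -/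
def polB (m : ℕ) : Matrix (Fin (dim m)) (Fin (dim m)) ℚ :=
  Matrix.of fun r s => if (r : ℕ) = s + 1 ∨ (s : ℕ) = r + 1 then 2 * (-1) ^ (r : ℕ) else 0

/-- the complex points of the torsor: matrices `X_S` and `lam ≠ 0` with `X_S polDR X_Sᵀ = lam polB` for all `S` -/
def Torsor (A : Finset (Fin (N + 1))) : Set ((∀ S : Sets A, Matrix (Fin (dim (deg S))) (Fin (dim (deg S))) ℂ) × ℂ) :=
  {x | x.2 ≠ 0 ∧ ∀ S, x.1 S * (polDR (deg S)).map (algebraMap ℚ ℂ) * (x.1 S).transpose =
    x.2 • (polB (deg S)).map (algebraMap ℚ ℂ)}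

/-- the indices of the entries of the matrices -/
abbrev Ind (A : Finset (Fin (N + 1))) : Type := Σ S : Sets A, Fin (dim (deg S)) × Fin (dim (deg S))

/-- the value at `X` of the polynomial with coefficients `∑ a, ξ a * c l a`, of degree at most `k` in each entry -/
noncomputable def value {A : Finset (Fin (N + 1))} {k : ℕ} (c : (Ind A → Fin (k + 1)) → Fin k → ℂ) (ξ : Fin k → ℂ)
    (X : ∀ S : Sets A, Matrix (Fin (dim (deg S))) (Fin (dim (deg S))) ℂ) : ℂ :=
  ∑ l : Ind A → Fin (k + 1), (∑ a, ξ a * c l a) * ∏ y : Ind A, (X y.1 y.2.1 y.2.2) ^ (l y : ℕ)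

/-- the period conjecture in bounded degree and height at `t`: every polynomial relation between the periods of all the
curves, of degree at most `k` in each entry, with coefficients `∑ a, ξ a * c l a`, `c l a` in the integers of `K` with
conjugates at most `T ^ k`, holds on the fibre of the torsor over `2 π i`; and every relation between the periods with
coefficients `∑ a, (2 π i) ^ a * c l a` holds on the torsor, with `lam` instead of `2 π i` -/
def PeriodConjecture (z : Fin (N + 1) → ℝ) (A : Finset (Fin (N + 1))) (k : ℕ) (K : Type) [Field K] [NumberField K]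
    (io : K →+* ℂ) (ξ : Fin k → ℂ) (T : ℝ) (t : {k // k ∈ A} → ℂ) : Prop :=
  ∀ c : (Ind A → Fin (k + 1)) → Fin k → 𝓞 K, (∀ l a (φ : K →+* ℂ), ‖φ (c l a : K)‖ ≤ T ^ k) →
    (value (fun l a => io (c l a : K)) ξ (curves z A t) = 0 →
      ∀ Y, (Y, (2 * Real.pi * Complex.I : ℂ)) ∈ Torsor A → value (fun l a => io (c l a : K)) ξ Y = 0) ∧
    (value (fun l a => io (c l a : K)) (fun a => (2 * Real.pi * Complex.I : ℂ) ^ (a : ℕ)) (curves z A t) = 0 →
      ∀ x ∈ Torsor A, value (fun l a => io (c l a : K)) (fun a => x.2 ^ (a : ℕ)) x.1 = 0)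

/-- quotients `a / b` of integers of `K` all of whose conjugates are at most `T` -/
def HeightLe (K : Type) [Field K] [NumberField K] (T : ℝ) (x : K) : Prop := Pool.Agent.Y120.HtLe K T x

/-- the points of `Domain z A` over `K`, of height at most `T`, of norm at most `k` and at distance at least `1 / k` from
the complement of the domain, at which the period conjecture in bounded degree and height does not hold -/
def Exceptional (z : Fin (N + 1) → ℝ) (A : Finset (Fin (N + 1))) (k : ℕ) (K : Type) [Field K] [NumberField K]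
    (io : K →+* ℂ) (ξ : Fin k → ℂ) (T : ℝ) : Set ({k // k ∈ A} → K) :=
  {e | (∀ j, HeightLe K T (e j)) ∧
    (‖fun j => io (e j)‖ ≤ k ∧ Metric.ball (fun j => io (e j)) (k : ℝ)⁻¹ ⊆ Domain z A) ∧
    ¬ PeriodConjecture z A k K io ξ T (fun j => io (e j))}

/-- `E` is contained in the union of at most `m` hypersurfaces of degree at most `D` -/
def Covered {X : Type} (D m : ℕ) (E : Set (X → ℂ)) : Prop :=
  ∃ Φ : Finset (MvPolynomial X ℂ), Φ.card ≤ m ∧ (∀ P ∈ Φ, P ≠ 0 ∧ P.totalDegree ≤ D) ∧
    ∀ x ∈ E, ∃ P ∈ Φ, MvPolynomial.eval x P = 0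

theorem polDR_map (m : ℕ) : (polDR m).map (algebraMap ℚ ℂ) = Pool.Agent.N121.AH.q0 ℂ m := by
  ext r s
  rw [Matrix.map_apply]
  unfold polDR Pool.Agent.N121.AH.q0
  rw [Matrix.of_apply, Matrix.of_apply]
  split_ifs <;> simp

theorem torsor_eq (A : Finset (Fin (N + 1))) : Torsor A = Pool.Agent.N121.FX.TrA A := by
  ext x
  unfold Torsor
  simp only [Set.mem_ofPred_eq, polDR_map]
  exact Iff.rfl

theorem periods_eq {m : ℕ} (e : Fin (m + 1) → ℂ) : periods e =
    (Matrix.of fun (l : Fin (Pool.Agent.N121.AH.mm m)) (k : Fin m) =>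
      Pool.Agent.N121.FX.per1 e (Pool.Agent.N121.AH.cst l) k) * Pool.Agent.N121.AH.cf m (Pool.Agent.N121.OH.rp e) := by
  ext l i
  unfold periods
  rw [Matrix.of_apply, Matrix.mul_apply]
  rfl

theorem curves_eq (z : Fin (N + 1) → ℝ) (A : Finset (Fin (N + 1))) (t : {k // k ∈ A} → ℂ) :
    curves z A t = Pool.Agent.N121.FX.perA z A t := funext fun _ => periods_eq _

theorem exceptional_eq (z : Fin (N + 1) → ℝ) (A : Finset (Fin (N + 1))) (k : ℕ) (K : Type) [Field K] [NumberField K]
    (io : K →+* ℂ) (ξ : Fin k → ℂ) (T : ℝ) : Exceptional z A k K io ξ T = Pool.Agent.N121.FX.ExA z A k K io ξ T := by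
  unfold Exceptional PeriodConjecture Pool.Agent.N121.FX.ExA Pool.Agent.N121.FX.GenA
  simp only [torsor_eq, curves_eq]
  rfl

/-- Let `z 0 < … < z N` be real and let `A` be a nonempty set of positions. The periods of all the curves `C_S(t)`
and `2 π i` are on the torsor. There is `ω → ∞` such that for all large `T`, all number fields `K` of degree at most
`ω(T)`, embedded in `ℂ`, and all complex `ξ a`, `a < ω(T)`: the points of the domain with coordinates in `K`, of height
at most `T`, norm at most `ω(T)` and distance at least `1 / ω(T)` from the complement of the domain, at which the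
period conjecture for all the curves does not hold in degree at most `ω(T)` and height at most `T ^ ω(T)` (with
coefficients in the space generated by the `ξ a` over `K`, respectively over `K` for the periods and `2 π i`), lie on at
most `T ^ (1 / ω(T))` hypersurfaces of degree at most `T ^ (1 / ω(T))`; there are at most `T ^ (1 / ω(T)) M ^ (|A| - 1)` of
them, `M` the number of the elements of `K` of height at most `T`. So there are at most `T ^ (1 / ω(T))` if one point
moves. -/
theorem result (z : Fin (N + 1) → ℝ) (hz : StrictMono z) (A : Finset (Fin (N + 1))) (hA : A.Nonempty) :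
    (∀ t ∈ Domain z A, (curves z A t, (2 * Real.pi * Complex.I : ℂ)) ∈ Torsor A) ∧
    ∃ (ω : ℝ → ℕ) (T₀ : ℝ), Tendsto ω atTop atTop ∧ Monotone ω ∧ ∀ T, T₀ ≤ T → 0 < ω T ∧
      ∀ (K : Type) [Field K] [NumberField K], Module.finrank ℚ K ≤ ω T → ∀ (io : K →+* ℂ) (ξ : Fin (ω T) → ℂ),
        Covered ⌊T ^ ((ω T : ℝ)⁻¹)⌋₊ ⌊T ^ ((ω T : ℝ)⁻¹)⌋₊
          ((fun (e : {k // k ∈ A} → K) j => io (e j)) '' Exceptional z A (ω T) K io ξ T) ∧
        (Exceptional z A (ω T) K io ξ T).Finite ∧
        ((Exceptional z A (ω T) K io ξ T).ncard : ℝ) ≤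
          T ^ ((ω T : ℝ)⁻¹) * ({x : K | HeightLe K T x}.ncard : ℝ) ^ (A.card - 1) := by
  refine ⟨fun t ht => ?_, ?_⟩
  · have h1 := (Pool.Agent.N121.FX.famA hz A).mem (x := t) ht
    have h2 := Pool.Agent.N121.FX.famA_P (A := A) hz ht
    rw [h2, Pool.Agent.N121.FX.famA_torsor hz t] at h1
    rw [torsor_eq, curves_eq]
    exact h1
  · obtain ⟨ω, T₀, h1, h2, h3⟩ := Pool.Agent.N121.FX.mainA hz hA
    refine ⟨ω, T₀, h1, h2, fun T hT => ⟨(h3 T hT).1, ?_⟩⟩
    intro K _ _ hK io ξ
    have h4 := (h3 T hT).2 K hK io ξ
    rw [exceptional_eq]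
    exact h4

end Pool.Agent.Results.MP_57341d_ag.FixedMovingBranchPoints
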